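import Mathlib

set_option autoImplicit false

/-!
# Newton polytopes of cluster variables can be arbitrarily far from saturated

For every `d ≥ 2` the rank 3 matrix `B d = !![0,-d,d; d,0,-d; -1,1,0]` has a cluster variable, four
mutations away from the initial seed with principal coefficients, whose Laurent expansion has at
most `d² + d + 1` nonzero coefficients, while at least `(d-1) d (2d-1) / 6` lattice points of its
Newton polytope have coefficient zero.
-/

namespace Pool.Agent.Results.MP_56f0a1_co.DensityZero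

/-- The field in which the cluster variables live. -/
abbrev Fld (n : ℕ) : Type := FractionRing (MvPolynomial (Fin n ⊕ Fin n) ℤ)

/-- The initial variables `x₁, …, xₙ, y₁, …, yₙ` as elements of the field. -/
noncomputable def var {n : ℕ} (i : Fin n ⊕ Fin n) : Fld n :=
  algebraMap (MvPolynomial (Fin n ⊕ Fin n) ℤ) (Fld n) (MvPolynomial.X i)

/-- Mutation of a (labelled, extended) seed in direction `m`. -/
noncomputable def mutate {n : ℕ}
    (s : (Fin n ⊕ Fin n → Fld n) × Matrix (Fin n ⊕ Fin n) (Fin n) ℤ) (m : Fin n) :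
    (Fin n ⊕ Fin n → Fld n) × Matrix (Fin n ⊕ Fin n) (Fin n) ℤ :=
  (Function.update s.1 (Sum.inl m)
    ((∏ i, s.1 i ^ (s.2 i m).toNat + ∏ i, s.1 i ^ (-(s.2 i m)).toNat) / s.1 (Sum.inl m)),
   Matrix.of (fun (i : Fin n ⊕ Fin n) (j : Fin n) =>
     if i = Sum.inl m ∨ j = m then -(s.2 i j)
     else s.2 i j + Int.sign (s.2 i m) * max (s.2 i m * s.2 (Sum.inl m) j) 0))

/-- The cluster variable in position `k` after the mutations `ks` of the seed with exchange matrix
`B` and principal coefficients. -/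
noncomputable def clusterVar {n : ℕ} (B : Matrix (Fin n) (Fin n) ℤ) (ks : List (Fin n))
    (k : Fin n) : Fld n :=
  (List.foldl mutate (fun i => var i, Matrix.fromRows B (1 : Matrix (Fin n) (Fin n) ℤ)) ks).1
    (Sum.inl k)

/-- `B` is skew-symmetrizable. -/
def IsSkewSymmetrizable {n : ℕ} (B : Matrix (Fin n) (Fin n) ℤ) : Prop :=
  ∃ d : Fin n → ℤ, (∀ i, 0 < d i) ∧ ∀ i j, d i * B i j = -(d j * B j i)

/-- The Laurent polynomial in the initial variables with the coefficients `c`. -/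
noncomputable def laurent {n : ℕ} (c : (Fin n ⊕ Fin n → ℤ) →₀ ℤ) : Fld n :=
  c.sum (fun a r => (r : Fld n) * ∏ i, var i ^ (a i))

/-- The lattice point `a` lies in the Newton polytope of the Laurent polynomial. -/
def InNewton {n : ℕ} (c : (Fin n ⊕ Fin n → ℤ) →₀ ℤ) (a : Fin n ⊕ Fin n → ℤ) : Prop :=
  (fun i => (a i : ℝ)) ∈ convexHull ℝ
    ((fun b : Fin n ⊕ Fin n → ℤ => fun i => (b i : ℝ)) '' (↑c.support : Set (Fin n ⊕ Fin n → ℤ)))

/-- The exchange matrices of the family. -/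
def B (d : ℕ) : Matrix (Fin 3) (Fin 3) ℤ :=
  !![0, -(d : ℤ), (d : ℤ); (d : ℤ), 0, -(d : ℤ); -1, 1, 0]

/-- The index set of the six variables `x₁, x₂, x₃, y₁, y₂, y₃`. -/
abbrev J : Type := Fin 3 ⊕ Fin 3

/-- The field in which the cluster variables live. -/
abbrev K : Type := Fld 3

/-- A vector of six entries. -/
def six {α : Type} (a b c u w z : α) : J → α := Sum.elim ![a, b, c] ![u, w, z]

/-- Matrices with six rows. -/
def mat (a b c u w z : Fin 3 → ℤ) : Matrix J (Fin 3) ℤ := Matrix.of (six a b c u w z)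

theorem prod_six (f : J → K) : ∏ i, f i =
    f (Sum.inl 0) * f (Sum.inl 1) * f (Sum.inl 2) *
      (f (Sum.inr 0) * f (Sum.inr 1) * f (Sum.inr 2)) := by
  rw [Fintype.prod_sum_type, Fin.prod_univ_three, Fin.prod_univ_three]

/-- Matrix mutation. -/
def stepM (M : Matrix J (Fin 3) ℤ) (m : Fin 3) : Matrix J (Fin 3) ℤ :=
  Matrix.of (fun (i : J) (j : Fin 3) =>
     if i = Sum.inl m ∨ j = m then -(M i j)
     else M i j + Int.sign (M i m) * max (M i m * M (Sum.inl m) j) 0)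

theorem step_eq (f : J → K) (M : Matrix J (Fin 3) ℤ) (m : Fin 3) :
    mutate (f, M) m = (Function.update f (Sum.inl m)
      ((∏ i, f i ^ (M i m).toNat + ∏ i, f i ^ (-(M i m)).toNat) / f (Sum.inl m)), stepM M m) := rfl

theorem upd0 (a b c u w z t : K) :
    Function.update (six a b c u w z) (Sum.inl 0) t = six t b c u w z := by
  funext i
  rcases i with i | i
  · fin_cases i
    · exact Function.update_self _ _ _
    · exact Function.update_of_ne (by decide) _ _
    · exact Function.update_of_ne (by decide) _ _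
  · exact Function.update_of_ne (by simp) _ _

theorem upd1 (a b c u w z t : K) :
    Function.update (six a b c u w z) (Sum.inl 1) t = six a t c u w z := by
  funext i
  rcases i with i | i
  · fin_cases i
    · exact Function.update_of_ne (by decide) _ _
    · exact Function.update_self _ _ _
    · exact Function.update_of_ne (by decide) _ _
  · exact Function.update_of_ne (by simp) _ _

theorem upd2 (a b c u w z t : K) :
    Function.update (six a b c u w z) (Sum.inl 2) t = six a b t u w z := by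
  funext i
  rcases i with i | i
  · fin_cases i
    · exact Function.update_of_ne (by decide) _ _
    · exact Function.update_of_ne (by decide) _ _
    · exact Function.update_self _ _ _
  · exact Function.update_of_ne (by simp) _ _

/-- The two products of the exchange relation. -/
theorem prods (a b c u w z : K) (k0 k1 k2 k3 k4 k5 : ℤ) (e : J → ℤ)
    (he : e = six k0 k1 k2 k3 k4 k5) :
    ∏ i, (six a b c u w z) i ^ (e i).toNat =
      a ^ k0.toNat * b ^ k1.toNat * c ^ k2.toNat * (u ^ k3.toNat * w ^ k4.toNat * z ^ k5.toNat) := by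
  subst he
  rw [prod_six]
  rfl

/-- One mutation, in terms of the column of the matrix. -/
theorem mut_eq (a b c u w z : K) (r0 r1 r2 r3 r4 r5 : Fin 3 → ℤ) (m : Fin 3) :
    mutate (six a b c u w z, mat r0 r1 r2 r3 r4 r5) m =
      (Function.update (six a b c u w z) (Sum.inl m)
        ((a ^ (r0 m).toNat * b ^ (r1 m).toNat * c ^ (r2 m).toNat *
            (u ^ (r3 m).toNat * w ^ (r4 m).toNat * z ^ (r5 m).toNat) +
          a ^ (-r0 m).toNat * b ^ (-r1 m).toNat * c ^ (-r2 m).toNat *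
            (u ^ (-r3 m).toNat * w ^ (-r4 m).toNat * z ^ (-r5 m).toNat)) /
          (six a b c u w z) (Sum.inl m)), stepM (mat r0 r1 r2 r3 r4 r5) m) := by
  rw [step_eq, prods a b c u w z (r0 m) (r1 m) (r2 m) (r3 m) (r4 m) (r5 m)
      (fun i => mat r0 r1 r2 r3 r4 r5 i m) (by
        funext i; rcases i with i | i <;> fin_cases i <;> rfl),
    prods a b c u w z (-r0 m) (-r1 m) (-r2 m) (-r3 m) (-r4 m) (-r5 m)
      (fun i => -(mat r0 r1 r2 r3 r4 r5 i m)) (by
        funext i; rcases i with i | i <;> fin_cases i <;> rfl)]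

theorem stepM1 (d : ℕ) (hd : 1 ≤ d) :
    stepM (mat ![0, -(d : ℤ), d] ![(d : ℤ), 0, -d] ![-1, 1, 0] ![1, 0, 0] ![0, 1, 0] ![0, 0, 1]) 2
      = mat ![0, 0, -(d : ℤ)] ![0, 0, (d : ℤ)] ![1, -1, 0] ![1, 0, 0] ![0, 1, 0] ![0, 1, -1] := by
  have h0 : (0 : ℤ) < d := by exact_mod_cast hd
  have h1 : Int.sign (d : ℤ) = 1 := Int.sign_eq_one_of_pos h0
  have h2 : Int.sign (-(d : ℤ)) = -1 := by rw [Int.sign_neg, h1]
  ext i j
  rcases i with i | i <;> fin_cases i <;> fin_cases j <;>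
    simp [stepM, mat, six, h1]

theorem stepM2 (d : ℕ) (hd : 1 ≤ d) :
    stepM (mat ![0, 0, -(d : ℤ)] ![0, 0, (d : ℤ)] ![1, -1, 0] ![1, 0, 0] ![0, 1, 0] ![0, 1, -1]) 0
      = mat ![0, 0, (d : ℤ)] ![0, 0, (d : ℤ)] ![-1, -1, 0] ![-1, 0, 0] ![0, 1, 0] ![0, 1, -1] := by
  have h0 : (0 : ℤ) < d := by exact_mod_cast hd
  have h1 : Int.sign (d : ℤ) = 1 := Int.sign_eq_one_of_pos h0
  ext i j
  rcases i with i | i <;> fin_cases i <;> fin_cases j <;>
    simp [stepM, mat, six]

theorem stepM3 (d : ℕ) (hd : 1 ≤ d) :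
    stepM (mat ![0, 0, (d : ℤ)] ![0, 0, (d : ℤ)] ![-1, -1, 0] ![-1, 0, 0] ![0, 1, 0] ![0, 1, -1]) 1
      = mat ![0, 0, (d : ℤ)] ![0, 0, -(d : ℤ)] ![-1, 1, 0] ![-1, 0, 0] ![0, -1, (d : ℤ)]
          ![0, -1, (d : ℤ) - 1] := by
  have h0 : (0 : ℤ) < d := by exact_mod_cast hd
  have h1 : Int.sign (d : ℤ) = 1 := Int.sign_eq_one_of_pos h0
  ext i j
  rcases i with i | i <;> fin_cases i <;> fin_cases j <;>
    simp [stepM, mat, six]
  all_goals ring

theorem var_ne_zero (i : J) : (var i : K) ≠ 0 := by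
  unfold var
  intro h
  have h1 := (IsFractionRing.injective (MvPolynomial J ℤ) K) (h.trans (map_zero _).symm)
  exact MvPolynomial.X_ne_zero i h1

theorem E_ne_zero (d : ℕ) :
    (var (Sum.inl 0) : K) ^ d * var (Sum.inr 2) + var (Sum.inl 1) ^ d ≠ 0 := by
  unfold var
  rw [← map_pow, ← map_mul, ← map_pow, ← map_add]
  intro h
  have h1 := (IsFractionRing.injective (MvPolynomial J ℤ) K) (h.trans (map_zero _).symm)
  have h2 := congrArg (MvPolynomial.eval (fun _ => (1 : ℤ))) h1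
  simp at h2

theorem tE : (-1 : ℤ).toNat = 0 := rfl

theorem step1 (d : ℕ) (hd : 1 ≤ d) (a b c u w z : K) :
    mutate (six a b c u w z,
      mat ![0, -(d : ℤ), d] ![(d : ℤ), 0, -d] ![-1, 1, 0] ![1, 0, 0] ![0, 1, 0] ![0, 0, 1]) 2
      = (six a b ((a ^ d * z + b ^ d) / c) u w z,
        mat ![0, 0, -(d : ℤ)] ![0, 0, (d : ℤ)] ![1, -1, 0] ![1, 0, 0] ![0, 1, 0] ![0, 1, -1]) := by
  rw [mut_eq, stepM1 d hd, upd2]
  refine Prod.ext (congrArg (fun t => six a b t u w z) ?_) rfl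
  simp [six]

theorem step2 (d : ℕ) (hd : 1 ≤ d) (a b c u w z : K) :
    mutate (six a b c u w z,
      mat ![0, 0, -(d : ℤ)] ![0, 0, (d : ℤ)] ![1, -1, 0] ![1, 0, 0] ![0, 1, 0] ![0, 1, -1]) 0
      = (six ((c * u + 1) / a) b c u w z,
        mat ![0, 0, (d : ℤ)] ![0, 0, (d : ℤ)] ![-1, -1, 0] ![-1, 0, 0] ![0, 1, 0] ![0, 1, -1]) := by
  rw [mut_eq, stepM2 d hd, upd0]
  refine Prod.ext (congrArg (fun t => six t b c u w z) ?_) rfl
  simp [six, tE]

theorem step3 (d : ℕ) (hd : 1 ≤ d) (a b c u w z : K) :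
    mutate (six a b c u w z,
      mat ![0, 0, (d : ℤ)] ![0, 0, (d : ℤ)] ![-1, -1, 0] ![-1, 0, 0] ![0, 1, 0] ![0, 1, -1]) 1
      = (six a ((w * z + c) / b) c u w z,
        mat ![0, 0, (d : ℤ)] ![0, 0, -(d : ℤ)] ![-1, 1, 0] ![-1, 0, 0] ![0, -1, (d : ℤ)]
          ![0, -1, (d : ℤ) - 1]) := by
  rw [mut_eq, stepM3 d hd, upd1]
  refine Prod.ext (congrArg (fun t => six a t c u w z) ?_) rfl
  simp [six, tE]

theorem step4 (d : ℕ) (hd : 1 ≤ d) (a b c u w z : K) :
    (mutate (six a b c u w z,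
      mat ![0, 0, (d : ℤ)] ![0, 0, -(d : ℤ)] ![-1, 1, 0] ![-1, 0, 0] ![0, -1, (d : ℤ)]
          ![0, -1, (d : ℤ) - 1]) 2).1 (Sum.inl 2)
      = (a ^ d * (w ^ d * z ^ (d - 1)) + b ^ d) / c := by
  rw [mut_eq, upd2]
  have e1 : (1 - (d : ℤ)).toNat = 0 := by omega
  simp [six, e1]

/-- The cluster variable after the four mutations. -/
theorem cluster_formula (d : ℕ) (hd : 1 ≤ d) (a b c u w z : K) (ha : a = var (Sum.inl 0))
    (hb : b = var (Sum.inl 1)) (hc : c = var (Sum.inl 2)) (hu : u = var (Sum.inr 0))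
    (hw : w = var (Sum.inr 1)) (hz : z = var (Sum.inr 2)) :
    clusterVar (B d) [2, 0, 1, 2] 2 =
      ((((a ^ d * z + b ^ d) / c * u + 1) / a) ^ d * (w ^ d * z ^ (d - 1)) +
        ((w * z + (a ^ d * z + b ^ d) / c) / b) ^ d) / ((a ^ d * z + b ^ d) / c) := by
  have hinit1 : (fun i => var i : J → K) = six a b c u w z := by
    subst ha hb hc hu hw hz
    funext i
    rcases i with i | i <;> fin_cases i <;> rfl
  have hinit2 : Matrix.fromRows (B d) (1 : Matrix (Fin 3) (Fin 3) ℤ) =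
      mat ![0, -(d : ℤ), d] ![(d : ℤ), 0, -d] ![-1, 1, 0] ![1, 0, 0] ![0, 1, 0] ![0, 0, 1] := by
    ext i j
    rcases i with i | i
    · rw [Matrix.fromRows_apply_inl]
      fin_cases i <;> fin_cases j <;> rfl
    · rw [Matrix.fromRows_apply_inr]
      fin_cases i <;> fin_cases j <;> rfl
  unfold clusterVar
  rw [hinit1, hinit2]
  simp only [List.foldl_cons, List.foldl_nil]
  rw [step1 d hd, step2 d hd, step3 d hd, step4 d hd]

/-- The expansion, in any field. -/
theorem algebra_identity {F : Type*} [Field F] (d : ℕ) (hd : 1 ≤ d) (a b c u w z : F)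
    (ha : a ≠ 0) (hb : b ≠ 0) (hc : c ≠ 0) (hE : a ^ d * z + b ^ d ≠ 0) :
    ((((a ^ d * z + b ^ d) / c * u + 1) / a) ^ d * (w ^ d * z ^ (d - 1)) +
        ((w * z + (a ^ d * z + b ^ d) / c) / b) ^ d) / ((a ^ d * z + b ^ d) / c) =
      w ^ d * z ^ (d - 1) * c / (a ^ d * b ^ d) +
      ∑ j ∈ Finset.range d, ∑ i ∈ Finset.range (j + 1),
        ((d.choose (j + 1) : F) * (j.choose i : F)) *
          (((a ^ d * z) ^ i * (b ^ d) ^ (j - i) / c ^ j) *
            (u ^ (j + 1) * w ^ d * z ^ (d - 1) / a ^ d + (w * z) ^ (d - (j + 1)) / b ^ d)) := by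
  set E := a ^ d * z + b ^ d with hEdef
  have h1 : (E / c * u + 1) ^ d = ∑ j ∈ Finset.range d,
      (E / c * u) ^ (j + 1) * (d.choose (j + 1) : F) + 1 := by
    rw [add_pow, Finset.sum_range_succ']
    simp
  have h2 : (w * z + E / c) ^ d = ∑ j ∈ Finset.range d,
      (E / c) ^ (j + 1) * (w * z) ^ (d - (j + 1)) * (d.choose (j + 1) : F) + (w * z) ^ d := by
    rw [add_comm (w * z), add_pow, Finset.sum_range_succ']
    simp
  have h3 : ∀ j : ℕ, (E / c) ^ j = ∑ i ∈ Finset.range (j + 1),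
      (a ^ d * z) ^ i * (b ^ d) ^ (j - i) * (j.choose i : F) / c ^ j := by
    intro j
    rw [div_pow, hEdef, add_pow, Finset.sum_div]
  have hzd : z ^ d = z ^ (d - 1) * z := by
    rw [← pow_succ]
    congr 1
    omega
  have hEc : E / c ≠ 0 := div_ne_zero hE hc
  rw [div_pow, h1, div_pow, h2]
  have h4 : ∀ j : ℕ, ∑ i ∈ Finset.range (j + 1),
        ((d.choose (j + 1) : F) * (j.choose i : F)) *
          (((a ^ d * z) ^ i * (b ^ d) ^ (j - i) / c ^ j) *
            (u ^ (j + 1) * w ^ d * z ^ (d - 1) / a ^ d + (w * z) ^ (d - (j + 1)) / b ^ d)) =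
      (E / c) ^ j * ((d.choose (j + 1) : F) *
        (u ^ (j + 1) * w ^ d * z ^ (d - 1) / a ^ d + (w * z) ^ (d - (j + 1)) / b ^ d)) := by
    intro j
    rw [h3, Finset.sum_mul]
    refine Finset.sum_congr rfl fun i _ => ?_
    ring
  simp only [h4]
  rw [div_eq_iff hEc, add_mul, Finset.sum_mul]
  have h5 : w ^ d * z ^ (d - 1) * c / (a ^ d * b ^ d) * (E / c) =
      1 / a ^ d * (w ^ d * z ^ (d - 1)) + (w * z) ^ d / b ^ d := by
    rw [mul_pow, hzd, hEdef]
    field_simp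
    ring
  rw [h5]
  have h6 : ∀ j ∈ Finset.range d, (E / c) ^ j * ((d.choose (j + 1) : F) *
        (u ^ (j + 1) * w ^ d * z ^ (d - 1) / a ^ d + (w * z) ^ (d - (j + 1)) / b ^ d)) * (E / c) =
      ((E / c * u) ^ (j + 1) * (d.choose (j + 1) : F)) / a ^ d * (w ^ d * z ^ (d - 1)) +
        ((E / c) ^ (j + 1) * (w * z) ^ (d - (j + 1)) * (d.choose (j + 1) : F)) / b ^ d := by
    intro j _
    rw [mul_pow (E / c) u, pow_succ (E / c) j]
    ring
  rw [Finset.sum_congr rfl h6, Finset.sum_add_distrib, ← Finset.sum_mul, ← Finset.sum_div,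
    ← Finset.sum_div]
  ring

/-- Exponents of the first family of monomials. -/
def PP (d : ℕ) (p : Σ _ : ℕ, ℕ) : J → ℤ :=
  six (-(d : ℤ) + d * p.2) (d * ((p.1 : ℤ) - p.2)) (-(p.1 : ℤ)) ((p.1 : ℤ) + 1) d
    ((d : ℤ) - 1 + p.2)

/-- Exponents of the second family of monomials. -/
def QQ (d : ℕ) (p : Σ _ : ℕ, ℕ) : J → ℤ :=
  six ((d : ℤ) * p.2) (-(d : ℤ) + d * ((p.1 : ℤ) - p.2)) (-(p.1 : ℤ)) 0 ((d : ℤ) - 1 - p.1)
    ((d : ℤ) - 1 - p.1 + p.2)

/-- Exponent of the remaining monomial. -/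
def RR (d : ℕ) : J → ℤ := six (-(d : ℤ)) (-(d : ℤ)) 1 0 d ((d : ℤ) - 1)

/-- Index set of the two families. -/
def II (d : ℕ) : Finset (Σ _ : ℕ, ℕ) := (Finset.range d).sigma (fun j => Finset.range (j + 1))

/-- The coefficients. -/
def mm (d : ℕ) (p : Σ _ : ℕ, ℕ) : ℤ := (d.choose (p.1 + 1) : ℤ) * (p.1.choose p.2 : ℤ)

/-- The Laurent expansion. -/
noncomputable def cc (d : ℕ) : (J → ℤ) →₀ ℤ :=
  Finsupp.single (RR d) 1 +
    ∑ p ∈ II d, (Finsupp.single (PP d p) (mm d p) + Finsupp.single (QQ d p) (mm d p))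

theorem mem_II {d : ℕ} {p : Σ _ : ℕ, ℕ} : p ∈ II d ↔ p.1 < d ∧ p.2 ≤ p.1 := by
  unfold II
  rw [Finset.mem_sigma, Finset.mem_range, Finset.mem_range]
  omega

theorem mm_nonneg (d : ℕ) (p : Σ _ : ℕ, ℕ) : 0 ≤ mm d p := by unfold mm; positivity

theorem mm_pos {d : ℕ} {p : Σ _ : ℕ, ℕ} (h : p ∈ II d) : 0 < mm d p := by
  rw [mem_II] at h
  unfold mm
  have h1 : 0 < d.choose (p.1 + 1) := Nat.choose_pos (by omega)
  have h2 : 0 < p.1.choose p.2 := Nat.choose_pos h.2
  positivity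

/-- `laurent` as an additive map. -/
noncomputable def laurentHom : ((J → ℤ) →₀ ℤ) →+ K where
  toFun c := laurent c
  map_zero' := Finsupp.sum_zero_index
  map_add' c c' := Finsupp.sum_add_index' (by intro a; simp) (by intro a r s; push_cast; ring)

theorem laurent_single (a : J → ℤ) (r : ℤ) :
    laurentHom (Finsupp.single a r) = (r : K) * ∏ i, var i ^ (a i) := by
  change laurent (Finsupp.single a r) = _
  unfold laurent
  rw [Finsupp.sum_single_index]
  simp

theorem zp1 {F : Type*} [Field F] {x : F} (hx : x ≠ 0) (d i : ℕ) :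
    x ^ (-(d : ℤ) + d * i) = (x ^ d) ^ i / x ^ d := by
  rw [zpow_add₀ hx, zpow_neg, zpow_natCast, ← Nat.cast_mul, zpow_natCast, pow_mul, div_eq_mul_inv,
    mul_comm]

theorem zp2 {F : Type*} [Field F] (x : F) (d j i : ℕ) (h : i ≤ j) :
    x ^ ((d : ℤ) * ((j : ℤ) - i)) = (x ^ d) ^ (j - i) := by
  rw [← Nat.cast_sub h, ← Nat.cast_mul, zpow_natCast, pow_mul]

theorem zp2' {F : Type*} [Field F] {x : F} (hx : x ≠ 0) (d j i : ℕ) (h : i ≤ j) :
    x ^ (-(d : ℤ) + (d : ℤ) * ((j : ℤ) - i)) = (x ^ d) ^ (j - i) / x ^ d := by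
  rw [← Nat.cast_sub h, zp1 hx]

theorem laurent_cc (d : ℕ) (hd : 1 ≤ d) : laurent (cc d) = clusterVar (B d) [2, 0, 1, 2] 2 := by
  rw [cluster_formula d hd _ _ _ _ _ _ rfl rfl rfl rfl rfl rfl,
    algebra_identity d hd _ _ _ _ _ _ (var_ne_zero _) (var_ne_zero _) (var_ne_zero _)
      (E_ne_zero d)]
  have ha := var_ne_zero (Sum.inl 0)
  have hb := var_ne_zero (Sum.inl 1)
  have hc := var_ne_zero (Sum.inl 2)
  change laurentHom (cc d) = _
  unfold cc
  rw [map_add, map_sum, laurent_single, prod_six]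
  simp only [map_add, laurent_single, prod_six]
  unfold II
  rw [Finset.sum_sigma]
  simp only [RR, PP, QQ, six, Sum.elim_inl, Sum.elim_inr, Matrix.cons_val_zero,
    Matrix.cons_val_one, Matrix.cons_val, mm]
  generalize (var (Sum.inl 0) : K) = a at *
  generalize (var (Sum.inl 1) : K) = b at *
  generalize (var (Sum.inl 2) : K) = c at *
  generalize (var (Sum.inr 0) : K) = u at *
  generalize (var (Sum.inr 1) : K) = w at *
  generalize (var (Sum.inr 2) : K) = z at *
  congr 1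
  · have e1 : ((d : ℤ) - 1) = ((d - 1 : ℕ) : ℤ) := by omega
    rw [e1, zpow_neg, zpow_neg, zpow_natCast, zpow_natCast, zpow_natCast, zpow_natCast, zpow_one,
      zpow_zero]
    push_cast
    field_simp
  · refine Finset.sum_congr rfl fun j hj => Finset.sum_congr rfl fun i hi => ?_
    rw [Finset.mem_range] at hj hi
    have hij : i ≤ j := by omega
    have e1 : ((d : ℤ) - 1 + i) = ((d - 1 + i : ℕ) : ℤ) := by omega
    have e2 : ((d : ℤ) - 1 - j) = ((d - (j + 1) : ℕ) : ℤ) := by omega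
    have e3 : ((d - (j + 1) : ℕ) : ℤ) + i = ((d - (j + 1) + i : ℕ) : ℤ) := by push_cast; ring
    have e4 : ((j : ℤ) + 1) = ((j + 1 : ℕ) : ℤ) := by push_cast; ring
    have e5 : (d : ℤ) * (i : ℤ) = ((d * i : ℕ) : ℤ) := by push_cast; ring
    rw [zp1 ha, zp2 b d j i hij, zp2' hb d j i hij, e1, e2, e3, e4, e5]
    simp only [zpow_natCast, zpow_neg, zpow_zero, pow_add, pow_mul, mul_pow]
    push_cast
    field_simp

theorem cc_apply (d : ℕ) (q : J → ℤ) : cc d q = Finsupp.single (RR d) (1 : ℤ) q +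
    ∑ p ∈ II d, (Finsupp.single (PP d p) (mm d p) q + Finsupp.single (QQ d p) (mm d p) q) := by
  unfold cc
  rw [Finsupp.add_apply, Finsupp.finsetSum_apply]
  simp only [Finsupp.add_apply]

theorem single_nonneg' (q q' : J → ℤ) {r : ℤ} (hr : 0 ≤ r) : 0 ≤ Finsupp.single q r q' := by
  classical
  rw [Finsupp.single_apply]
  split_ifs
  · exact hr
  · exact le_rfl

theorem cc_RR (d : ℕ) : 0 < cc d (RR d) := by
  rw [cc_apply, Finsupp.single_eq_same]
  have : 0 ≤ ∑ p ∈ II d, (Finsupp.single (PP d p) (mm d p) (RR d) +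
      Finsupp.single (QQ d p) (mm d p) (RR d)) :=
    Finset.sum_nonneg fun p _ => add_nonneg (single_nonneg' _ _ (mm_nonneg d p))
      (single_nonneg' _ _ (mm_nonneg d p))
  linarith

theorem cc_PP (d : ℕ) {p : Σ _ : ℕ, ℕ} (hp : p ∈ II d) : 0 < cc d (PP d p) := by
  rw [cc_apply]
  have h1 : 0 ≤ Finsupp.single (RR d) (1 : ℤ) (PP d p) := single_nonneg' _ _ zero_le_one
  have h2 := Finset.single_le_sum (f := fun p' => Finsupp.single (PP d p') (mm d p') (PP d p) +
      Finsupp.single (QQ d p') (mm d p') (PP d p))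
    (fun p' _ => add_nonneg (single_nonneg' _ _ (mm_nonneg d p'))
      (single_nonneg' _ _ (mm_nonneg d p'))) hp
  have h3 : 0 ≤ Finsupp.single (QQ d p) (mm d p) (PP d p) := single_nonneg' _ _ (mm_nonneg d p)
  have h4 := mm_pos hp
  simp only [Finsupp.single_eq_same] at h2
  linarith

theorem cc_QQ (d : ℕ) {p : Σ _ : ℕ, ℕ} (hp : p ∈ II d) : 0 < cc d (QQ d p) := by
  rw [cc_apply]
  have h1 : 0 ≤ Finsupp.single (RR d) (1 : ℤ) (QQ d p) := single_nonneg' _ _ zero_le_one
  have h2 := Finset.single_le_sum (f := fun p' => Finsupp.single (PP d p') (mm d p') (QQ d p) +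
      Finsupp.single (QQ d p') (mm d p') (QQ d p))
    (fun p' _ => add_nonneg (single_nonneg' _ _ (mm_nonneg d p'))
      (single_nonneg' _ _ (mm_nonneg d p'))) hp
  have h3 : 0 ≤ Finsupp.single (PP d p) (mm d p) (QQ d p) := single_nonneg' _ _ (mm_nonneg d p)
  have h4 := mm_pos hp
  simp only [Finsupp.single_eq_same] at h2
  linarith

theorem cc_zero (d : ℕ) (q : J → ℤ) (h1 : q ≠ RR d) (h2 : ∀ p ∈ II d, q ≠ PP d p)
    (h3 : ∀ p ∈ II d, q ≠ QQ d p) : cc d q = 0 := by
  rw [cc_apply, Finsupp.single_eq_of_ne h1, zero_add]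
  refine Finset.sum_eq_zero fun p hp => ?_
  rw [Finsupp.single_eq_of_ne (h2 p hp), Finsupp.single_eq_of_ne (h3 p hp), add_zero]

theorem card_II (d : ℕ) : 2 * (II d).card = d * (d + 1) := by
  unfold II
  rw [Finset.card_sigma]
  simp only [Finset.card_range]
  induction d with
  | zero => simp
  | succ d ih => rw [Finset.sum_range_succ, mul_add, ih]; ring

theorem support_card (d : ℕ) : (cc d).support.card ≤ d ^ 2 + d + 1 := by
  classical
  have hsub : (cc d).support ⊆ {RR d} ∪ ((II d).image (PP d) ∪ (II d).image (QQ d)) := by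
    intro q hq
    by_contra hc
    rw [Finset.mem_union, Finset.mem_union, Finset.mem_singleton, Finset.mem_image,
      Finset.mem_image, not_or, not_or] at hc
    obtain ⟨h1, h2, h3⟩ := hc
    exact (Finsupp.mem_support_iff.1 hq) (cc_zero d q h1 (fun p hp e => h2 ⟨p, hp, e.symm⟩)
      (fun p hp e => h3 ⟨p, hp, e.symm⟩))
  have h1 := Finset.card_le_card hsub
  have h2 := Finset.card_union_le {RR d} ((II d).image (PP d) ∪ (II d).image (QQ d))
  have h3 := Finset.card_union_le ((II d).image (PP d)) ((II d).image (QQ d))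
  have h4 := Finset.card_image_le (s := II d) (f := PP d)
  have h5 := Finset.card_image_le (s := II d) (f := QQ d)
  have h6 := card_II d
  rw [Finset.card_singleton] at h2
  nlinarith

/-- The affine parametrization of the lattice points by the exponents of `y₁, y₂, y₃`. -/
def Psi (d : ℕ) (x y z : ℤ) : J → ℤ :=
  six (-(d : ℤ) * y + d * z) (d * x - d * z + d * (d - 2)) (-x + y - (d - 1)) x y z

/-- Index set of the missing points. -/
def TT (d : ℕ) : Finset (Σ _ : ℕ, ℕ × ℕ) :=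
  (Finset.range d).sigma (fun m => Finset.range m ×ˢ Finset.range m)

/-- The missing points. -/
def MM (d : ℕ) (p : Σ _ : ℕ, ℕ × ℕ) : J → ℤ :=
  Psi d (1 + p.2.1) (p.2.1 + d - p.1) (p.2.1 + d - p.1 + p.2.2)

theorem card_TT (d : ℕ) (hd : 1 ≤ d) : 6 * (TT d).card = (d - 1) * d * (2 * d - 1) := by
  unfold TT
  rw [Finset.card_sigma]
  simp only [Finset.card_product, Finset.card_range]
  induction d, hd using Nat.le_induction with
  | base => simp
  | succ d hd ih =>
    rw [Finset.sum_range_succ, mul_add, ih]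
    obtain ⟨e, rfl⟩ : ∃ e, d = e + 1 := ⟨d - 1, by omega⟩
    have h1 : 2 * (e + 1) - 1 = 2 * e + 1 := by omega
    have h2 : 2 * (e + 1 + 1) - 1 = 2 * e + 3 := by omega
    rw [h1, h2]
    simp only [Nat.add_sub_cancel]
    ring

theorem mem_TT {d : ℕ} {p : Σ _ : ℕ, ℕ × ℕ} : p ∈ TT d ↔ p.1 < d ∧ p.2.1 < p.1 ∧ p.2.2 < p.1 := by
  unfold TT
  rw [Finset.mem_sigma, Finset.mem_range, Finset.mem_product, Finset.mem_range, Finset.mem_range]

theorem MM_inj (d : ℕ) : Function.Injective (MM d) := by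
  rintro ⟨m, s, t⟩ ⟨m', s', t'⟩ h
  have h1 : (1 : ℤ) + s = 1 + s' := congrFun h (Sum.inr 0)
  have h2 : (s : ℤ) + d - m = s' + d - m' := congrFun h (Sum.inr 1)
  have h3 : (s : ℤ) + d - m + t = s' + d - m' + t' := congrFun h (Sum.inr 2)
  obtain rfl : s = s' := by omega
  obtain rfl : m = m' := by omega
  obtain rfl : t = t' := by omega
  rfl

theorem MM_zero (d : ℕ) {p : Σ _ : ℕ, ℕ × ℕ} (hp : p ∈ TT d) : cc d (MM d p) = 0 := by
  rw [mem_TT] at hp
  refine cc_zero d _ (fun h => ?_) (fun q _ h => ?_) (fun q _ h => ?_)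
  · have h1 : (p.2.1 : ℤ) + d - p.1 = d := congrFun h (Sum.inr 1)
    omega
  · have h1 : (p.2.1 : ℤ) + d - p.1 = d := congrFun h (Sum.inr 1)
    omega
  · have h1 : (1 : ℤ) + p.2.1 = 0 := congrFun h (Sum.inr 0)
    omega

theorem MM_hull (d : ℕ) (hd : 2 ≤ d) {p : Σ _ : ℕ, ℕ × ℕ} (hp : p ∈ TT d) :
    InNewton (cc d) (MM d p) := by
  obtain ⟨m, s, t⟩ := p
  rw [mem_TT] at hp
  simp only at hp
  obtain ⟨hm, hs, ht⟩ := hp
  unfold InNewton
  set S := (fun b : J → ℤ => fun i => (b i : ℝ)) '' (↑(cc d).support : Set (J → ℤ)) with hS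
  have memS : ∀ q : J → ℤ, 0 < cc d q → (fun i => (q i : ℝ)) ∈ convexHull ℝ S := by
    intro q hq
    refine subset_convexHull ℝ S ⟨q, ?_, rfl⟩
    rw [Finset.mem_coe, Finsupp.mem_support_iff]
    exact hq.ne'
  have v1 := memS _ (cc_PP d (p := ⟨d - 1, 0⟩) (mem_II.2 ⟨by simp; omega, by simp⟩))
  have v2 := memS _ (cc_PP d (p := ⟨d - 1, d - 1⟩) (mem_II.2 ⟨by simp; omega, by simp⟩))
  have v3 := memS _ (cc_RR d)
  have v4 := memS _ (cc_QQ d (p := ⟨d - 1, 0⟩) (mem_II.2 ⟨by simp; omega, by simp⟩))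
  have v5 := memS _ (cc_QQ d (p := ⟨d - 1, d - 1⟩) (mem_II.2 ⟨by simp; omega, by simp⟩))
  have hd' : (2 : ℝ) ≤ d := by exact_mod_cast hd
  have hd0 : (0 : ℝ) < d := by linarith
  have hd1 : (0 : ℝ) < (d : ℝ) - 1 := by linarith
  have hm' : (m : ℝ) + 1 ≤ d := by exact_mod_cast hm
  have hs' : (s : ℝ) + 1 ≤ m := by exact_mod_cast hs
  have ht' : (t : ℝ) + 1 ≤ m := by exact_mod_cast ht
  have hs0 : (0 : ℝ) ≤ s := Nat.cast_nonneg s
  have ht0 : (0 : ℝ) ≤ t := Nat.cast_nonneg t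
  -- the coordinates
  obtain ⟨x, hx⟩ : ∃ x : ℝ, x = 1 + s := ⟨_, rfl⟩
  obtain ⟨y, hy⟩ : ∃ y : ℝ, y = s + d - m := ⟨_, rfl⟩
  obtain ⟨z, hz⟩ : ∃ z : ℝ, z = s + d - m + t := ⟨_, rfl⟩
  -- the weights
  obtain ⟨g, hg⟩ : ∃ g : ℝ, g = 1 - (y - x) / d := ⟨_, rfl⟩
  have hgpos : 0 < g := by
    rw [hg, sub_pos, div_lt_one hd0]
    linarith
  obtain ⟨θ, hθ⟩ : ∃ θ : ℝ, θ = (z - y * (d - 1) / d) / ((d - 1) * g) := ⟨_, rfl⟩
  have hθ0 : 0 ≤ θ := by
    rw [hθ]
    refine div_nonneg ?_ (by positivity)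
    rw [sub_nonneg, div_le_iff₀ hd0]
    nlinarith
  have hθ1 : θ ≤ 1 := by
    rw [hθ, div_le_one (by positivity), hg, sub_le_iff_le_add]
    have e : (d - 1) * (1 - (y - x) / d) + y * (d - 1) / d = (d - 1) * (d + x) / (d : ℝ) := by
      field_simp; ring
    rw [e, le_div_iff₀ hd0]
    nlinarith
  have hθe : θ * ((d - 1) * g) = z - y * (d - 1) / d := by
    rw [hθ, div_mul_cancel₀ _ (by positivity)]
  have hconv := (convex_convexHull ℝ S).sum_mem (t := Finset.univ)
    (w := ![x / d * (1 - θ), x / d * θ, (y - x) / d, (1 - y / d) * (1 - θ), (1 - y / d) * θ])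
    (z := ![_, _, _, _, _])
    (by
      intro i _
      have a1 : 0 ≤ x / d := div_nonneg (by rw [hx]; linarith) hd0.le
      have a2 : 0 ≤ (y - x) / d := div_nonneg (by linarith) hd0.le
      have a3 : 0 ≤ 1 - y / d := by
        rw [sub_nonneg, div_le_one hd0]; linarith
      have a4 : 0 ≤ 1 - θ := by linarith
      fin_cases i
      · exact mul_nonneg a1 a4
      · exact mul_nonneg a1 hθ0
      · exact a2
      · exact mul_nonneg a3 a4
      · exact mul_nonneg a3 hθ0)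
    (by
      rw [Fin.sum_univ_five]
      simp only [Matrix.cons_val_zero, Matrix.cons_val_one, Matrix.cons_val]
      field_simp
      ring)
    (by
      intro i _
      fin_cases i
      · exact v1
      · exact v2
      · exact v3
      · exact v4
      · exact v5)
  convert hconv using 1
  have c1 : ((d - 1 : ℕ) : ℤ) = (d : ℤ) - 1 := by omega
  have c2 : ((d - 1 : ℕ) : ℝ) = (d : ℝ) - 1 := by
    rw [Nat.cast_sub (by omega)]; simp
  rw [Fin.sum_univ_five]
  have X1 : x = x / d * (1 - θ) * d + x / d * θ * d := by field_simp; ring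
  have Y1 : y = x / d * (1 - θ) * d + x / d * θ * d + (y - x) / d * d := by field_simp; ring
  have Z1 : z = x / d * (1 - θ) * (d - 1) + x / d * θ * (2 * (d - 1)) + (y - x) / d * (d - 1) +
      (1 - y / d) * θ * (d - 1) := by
    have : z = θ * ((d - 1) * g) + y * (d - 1) / d := by linarith
    rw [this, hg]
    field_simp
    ring
  have S1 : (1 : ℝ) = x / d * (1 - θ) + x / d * θ + (y - x) / d + (1 - y / d) * (1 - θ) +
      (1 - y / d) * θ := by field_simp; ring
  clear hconv v1 v2 v3 v4 v5 memS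
  subst hx hy hz
  funext i
  rcases i with i | i
  · fin_cases i
    · simp [MM, Psi, PP, QQ, RR, six, c1]
      linear_combination (-(d : ℝ)) * Y1 + d * Z1
    · simp [MM, Psi, PP, QQ, RR, six, c1]
      linear_combination (d : ℝ) * X1 - d * Z1 + d * (d - 2) * S1
    · simp [MM, Psi, PP, QQ, RR, six, c1]
      linear_combination -X1 + Y1 - (d - 1) * S1
  · fin_cases i
    · simp [MM, Psi, PP, QQ, RR, six, c1]
      linear_combination X1
    · simp [MM, Psi, PP, QQ, RR, six, c1]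
      linear_combination Y1
    · simp [MM, Psi, PP, QQ, RR, six, c1]
      linear_combination Z1

theorem B_skew (d : ℕ) (hd : 1 ≤ d) : IsSkewSymmetrizable (B d) := by
  refine ⟨![1, 1, d], fun i => ?_, fun i j => ?_⟩
  · fin_cases i
    · exact Int.one_pos
    · exact Int.one_pos
    · exact Int.natCast_pos.2 hd
  · fin_cases i <;> fin_cases j <;> simp [B]

/-- For every `d ≥ 2` the cluster variable obtained from the principal-coefficient seed of the
skew-symmetrizable matrix `B d` by the mutations `3, 1, 2, 3` has a Laurent expansion with at most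
`d² + d + 1` nonzero coefficients, and there are `(d-1) d (2d-1) / 6` lattice points of its Newton
polytope with coefficient zero. Hence the number of lattice points with coefficient zero divided
by the number of lattice points with nonzero coefficient is unbounded, already in rank 3 and at
distance 4 from the initial seed. -/
theorem result :
    (∀ d : ℕ, 2 ≤ d → IsSkewSymmetrizable (B d) ∧
      ∃ c : (Fin 3 ⊕ Fin 3 → ℤ) →₀ ℤ, clusterVar (B d) [2, 0, 1, 2] 2 = laurent c ∧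
        c.support.card ≤ d ^ 2 + d + 1 ∧
        ∃ T : Finset (Fin 3 ⊕ Fin 3 → ℤ), 6 * T.card = (d - 1) * d * (2 * d - 1) ∧
          ∀ a ∈ T, InNewton c a ∧ a ∉ c.support) ∧
    (∀ N : ℕ, ∃ (A : Matrix (Fin 3) (Fin 3) ℤ) (c : (Fin 3 ⊕ Fin 3 → ℤ) →₀ ℤ)
      (T : Finset (Fin 3 ⊕ Fin 3 → ℤ)), IsSkewSymmetrizable A ∧
        clusterVar A [2, 0, 1, 2] 2 = laurent c ∧ (∀ a ∈ T, InNewton c a ∧ a ∉ c.support) ∧
        N * c.support.card ≤ T.card) := by
  have key : ∀ d : ℕ, 2 ≤ d → IsSkewSymmetrizable (B d) ∧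
      ∃ c : (Fin 3 ⊕ Fin 3 → ℤ) →₀ ℤ, clusterVar (B d) [2, 0, 1, 2] 2 = laurent c ∧
        c.support.card ≤ d ^ 2 + d + 1 ∧
        ∃ T : Finset (Fin 3 ⊕ Fin 3 → ℤ), 6 * T.card = (d - 1) * d * (2 * d - 1) ∧
          ∀ a ∈ T, InNewton c a ∧ a ∉ c.support := by
    intro d hd
    classical
    refine ⟨B_skew d (by omega), cc d, (laurent_cc d (by omega)).symm, support_card d,
      (TT d).image (MM d), ?_, ?_⟩
    · rw [Finset.card_image_of_injective _ (MM_inj d), card_TT d (by omega)]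
    · intro a ha
      obtain ⟨p, hp, rfl⟩ := Finset.mem_image.1 ha
      refine ⟨MM_hull d hd hp, ?_⟩
      rw [Finsupp.mem_support_iff, not_not]
      exact MM_zero d hp
  refine ⟨key, fun N => ?_⟩
  obtain ⟨h1, c, h2, h3, T, h4, h5⟩ := key (6 * N + 6) (by omega)
  refine ⟨B (6 * N + 6), c, T, h1, h2, h5, ?_⟩
  have e1 : 6 * N + 6 - 1 = 6 * N + 5 := by omega
  have e2 : 2 * (6 * N + 6) - 1 = 12 * N + 11 := by omega
  rw [e1, e2] at h4
  have h6 : N * c.support.card ≤ N * ((6 * N + 6) ^ 2 + (6 * N + 6) + 1) :=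
    Nat.mul_le_mul_left N h3
  nlinarith

end Pool.Agent.Results.MP_56f0a1_co.DensityZero
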